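import Pool.Agent.Helper65.RT.Goals
import Pool.Agent.Helper65.LinSpace.Block

set_option autoImplicit false

/-!
# Parallel machines with adaptive reads: at the true values the polynomials give the true values
-/

namespace Pool.Agent.Helper35.RT

open Pool.Agent.Helper65.LinSpace Pool.Agent.Helper28.Ram Pool.Agent.Helper65.RT Finset

variable {m : Pool.Agent.Helper65.RT.Mach}

theorem T_lt (hm : m.Ok) (k u : ℕ) : m.T k u < 2 ^ m.b := by
  cases k with
  | zero => exact hm.ht0 u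
  | succ k => exact hm.ho _ _

theorem Zt_lt (hm : m.Ok) (R : ℕ → ℕ) (x n : ℕ) : m.Zt R x n < 2 ^ (m.a * n) := by
  induction n with
  | zero => simp [Mach.Zt]
  | succ n ih =>
    have h1 : 2 ^ (m.a * n) * (m.g x n (m.Zt R x n) (R (m.q x n (m.Zt R x n))) + 1) ≤
        2 ^ (m.a * n) * 2 ^ m.a := Nat.mul_le_mul_left _ (hm.hg _ _ _ _)
    have h2 : m.Zt R x (n + 1) = m.Zt R x n +
        2 ^ (m.a * n) * m.g x n (m.Zt R x n) (R (m.q x n (m.Zt R x n))) := rfl
    rw [h2, Nat.mul_succ, pow_add]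
    rw [Nat.mul_succ] at h1
    omega

theorem Zt_mod (hm : m.Ok) (R : ℕ → ℕ) (x : ℕ) {n N : ℕ} (h : n ≤ N) :
    m.Zt R x N % 2 ^ (m.a * n) = m.Zt R x n := by
  induction N with
  | zero =>
    have : n = 0 := by omega
    subst this
    simp [Mach.Zt]
  | succ N ih =>
    rcases Nat.lt_or_ge N n with h1 | h1
    · have : n = N + 1 := by omega
      subst this
      exact Nat.mod_eq_of_lt (Zt_lt hm R x _)
    · have h2 : m.Zt R x (N + 1) = m.Zt R x N +
          2 ^ (m.a * N) * m.g x N (m.Zt R x N) (R (m.q x N (m.Zt R x N))) := rfl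
      obtain ⟨c, rfl⟩ := Nat.exists_eq_add_of_le h1
      rw [h2, Nat.mul_add, pow_add, mul_assoc, Nat.add_mul_mod_self_left]
      exact ih h1

theorem Zt_bit (hm : m.Ok) (R : ℕ → ℕ) (x : ℕ) {n N j : ℕ} (h : n ≤ N) (hj : j < m.a * n) :
    dig 2 (m.Zt R x N) j = dig 2 (m.Zt R x n) j := by
  rw [← dig_mod_pow (m.Zt R x N) _ hj, Zt_mod hm R x h]

theorem dig_div (A s c : ℕ) : dig 2 (A / 2 ^ s) c = dig 2 A (s + c) := by
  unfold dig
  rw [Nat.div_div_eq_div_mul, ← pow_add]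

theorem wn_mul (i : ℕ) : i * m.wn = m.a * (i * m.E) := by
  unfold Mach.wn
  ring

/-- The bits of the digests. -/
theorem V_bits (hm : m.Ok) (p k x : ℕ) {i j : ℕ} (hi : i ≤ m.G) (hj : j < i * m.wn) :
    m.V p k (j / m.wn) x (j % m.wn) = bitZ p (m.Zt (m.T k) x (i * m.E)) j := by
  have hwn : 0 < m.wn := Nat.mul_pos hm.ha hm.hE
  have h1 : j / m.wn < i := (Nat.div_lt_iff_lt_mul hwn).2 hj
  unfold Pool.Agent.Helper65.RT.Mach.V Mach.vn bitZ
  rw [if_pos (lt_of_lt_of_le h1 hi), dig_div, Nat.div_add_mod']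
  congr 1
  have h2 : j < m.a * (j / m.wn * m.E + m.E) := by
    have h3 : j < m.wn * (j / m.wn + 1) := Nat.lt_mul_div_succ j hwn
    have h4 : m.wn * (j / m.wn + 1) = m.a * (j / m.wn * m.E + m.E) := by
      unfold Mach.wn
      ring
    omega
  have h5 : j / m.wn * m.E + m.E ≤ i * m.E := by
    have : (j / m.wn + 1) * m.E ≤ i * m.E := Nat.mul_le_mul_right _ h1
    rw [Nat.add_mul, one_mul] at this
    exact this
  rw [Zt_bit hm _ x h5 h2]

/-- The true number for the list `y`. -/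
def zz (m : Pool.Agent.Helper65.RT.Mach) (k i x y : ℕ) : ℕ :=
  m.Zt (m.T k) x (i * m.E) + 2 ^ (i * m.wn) * tab (2 ^ m.b) m.E (fun e => m.T k (dig (2 ^ m.σ) y e))

theorem tabT_lt (hm : m.Ok) (k y : ℕ) :
    tab (2 ^ m.b) m.E (fun e => m.T k (dig (2 ^ m.σ) y e)) < 2 ^ m.wv := by
  have := tab_lt (q := 2 ^ m.b) (m := m.E) (d := fun e => m.T k (dig (2 ^ m.σ) y e))
    fun e _ => T_lt hm k _
  rw [← pow_mul] at this
  unfold Mach.wv
  rwa [mul_comm m.E m.b]

theorem Zi_lt (hm : m.Ok) (k i x : ℕ) : m.Zt (m.T k) x (i * m.E) < 2 ^ (i * m.wn) := by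
  rw [wn_mul]
  exact Zt_lt hm _ _ _

theorem zz_lt (hm : m.Ok) (k i x y : ℕ) : zz m k i x y < 2 ^ m.nv i := by
  have h1 := Zi_lt hm k i x
  have h2 : 2 ^ (i * m.wn) * (tab (2 ^ m.b) m.E (fun e => m.T k (dig (2 ^ m.σ) y e)) + 1) ≤
      2 ^ (i * m.wn) * 2 ^ m.wv := Nat.mul_le_mul_left _ (tabT_lt hm k y)
  unfold zz Mach.nv
  rw [pow_add]
  rw [Nat.mul_add] at h2
  omega

theorem zz_mod (hm : m.Ok) (k i x y : ℕ) :
    zz m k i x y % 2 ^ (i * m.wn) = m.Zt (m.T k) x (i * m.E) := by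
  unfold zz
  rw [Nat.add_mul_mod_self_left, Nat.mod_eq_of_lt (Zi_lt hm k i x)]

theorem zz_div (hm : m.Ok) (k i x y : ℕ) : zz m k i x y / 2 ^ (i * m.wn) =
    tab (2 ^ m.b) m.E (fun e => m.T k (dig (2 ^ m.σ) y e)) := by
  unfold zz
  rw [Nat.add_mul_div_left _ _ (by positivity), Nat.div_eq_of_lt (Zi_lt hm k i x), zero_add]

/-- The bits of the number are the values of the variables. -/
theorem zz_bits (hm : m.Ok) (p k x y : ℕ) {i : ℕ} (hi : i ≤ m.G) {j : ℕ} (hj : j < m.nv i) :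
    m.vars p i (fun j => m.V p k (j / m.wn) x (j % m.wn)) (m.Y p k y) j =
      bitZ p (zz m k i x y) j := by
  unfold Mach.vars
  by_cases h : j < i * m.wn
  · rw [if_pos h]
    show m.V p k (j / m.wn) x (j % m.wn) = _
    rw [V_bits hm p k x hi h]
    unfold bitZ
    rw [← dig_mod_pow (zz m k i x y) _ h, zz_mod hm]
  · rw [if_neg h]
    push Not at h
    obtain ⟨o, rfl⟩ := Nat.exists_eq_add_of_le h
    rw [Nat.add_sub_cancel_left]
    unfold Mach.Y bitZ
    congr 1
    rw [← dig_div, zz_div hm]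
    have ho : o < m.E * m.b := by
      unfold Mach.nv Mach.wv at hj
      omega
    have h1 : o / m.b < m.E := by
      rw [Nat.div_lt_iff_lt_mul hm.hb]
      exact ho
    have h2 : o % m.b < m.b := Nat.mod_lt _ hm.hb
    conv_rhs => rw [← Nat.div_add_mod' o m.b]
    rw [dig_tab_block (by norm_num) (fun e _ => T_lt hm k _) h1 h2]

/-- The extension at the true values. -/
theorem fhat_true (hm : m.Ok) (p k x y : ℕ) {i : ℕ} (hi : i ≤ m.G) (F : ℕ → ℕ) (q : ℕ) :
    fhat p (m.nv i) F q (m.vars p i (fun j => m.V p k (j / m.wn) x (j % m.wn)) (m.Y p k y)) =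
      bitZ p (F (zz m k i x y)) q := by
  rw [← fhat_bits p (m.nv i) F q (zz_lt hm k i x y)]
  exact fhat_congr p fun j hj => zz_bits hm p k x y hi hj

theorem Zr_true (hm : m.Ok) (k i x y : ℕ) {e : ℕ} (he : e ≤ m.E)
    (hy : ∀ j < e, dig (2 ^ m.σ) y j =
      m.q x (i * m.E + j) (m.Zt (m.T k) x (i * m.E + j))) :
    m.Zr i x (zz m k i x y) e = m.Zt (m.T k) x (i * m.E + e) := by
  induction e with
  | zero =>
    unfold Mach.Zr
    rw [nrec_zero, zz_mod hm, Nat.add_zero]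
  | succ e ih =>
    have h1 := ih (by omega) fun j hj => hy j (by omega)
    have h2 : m.Zr i x (zz m k i x y) (e + 1) = m.Zr i x (zz m k i x y) e +
        2 ^ (m.a * (i * m.E + e)) * m.g x (i * m.E + e) (m.Zr i x (zz m k i x y) e)
          (dig (2 ^ m.b) (zz m k i x y / 2 ^ (i * m.wn)) e) := rfl
    have h3 : m.Zt (m.T k) x (i * m.E + (e + 1)) = m.Zt (m.T k) x (i * m.E + e) +
        2 ^ (m.a * (i * m.E + e)) * m.g x (i * m.E + e) (m.Zt (m.T k) x (i * m.E + e))
          (m.T k (m.q x (i * m.E + e) (m.Zt (m.T k) x (i * m.E + e)))) := rfl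
    rw [h2, h3, h1, zz_div hm, dig_tab (fun e _ => T_lt hm k _) (by omega), hy e (by omega)]

theorem ok_true (hm : m.Ok) (k i x y : ℕ) {n : ℕ} (hn : n ≤ m.E) :
    m.ok i x y (zz m k i x y) n = if ∀ j < n, dig (2 ^ m.σ) y j =
      m.q x (i * m.E + j) (m.Zt (m.T k) x (i * m.E + j)) then 1 else 0 := by
  induction n with
  | zero =>
    rw [if_pos fun j hj => absurd hj (by omega)]
    rfl
  | succ n ih =>
    have h1 : m.ok i x y (zz m k i x y) (n + 1) = m.ok i x y (zz m k i x y) n *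
        eq01 (m.q x (i * m.E + n) (m.Zr i x (zz m k i x y) n)) (dig (2 ^ m.σ) y n) := rfl
    rw [h1, ih (by omega)]
    by_cases h2 : ∀ j < n, dig (2 ^ m.σ) y j =
        m.q x (i * m.E + j) (m.Zt (m.T k) x (i * m.E + j))
    · rw [if_pos h2, one_mul, Zr_true hm k i x y (by omega) h2]
      unfold eq01
      refine if_congr ⟨fun h j hj => ?_, fun h => (h n (by omega)).symm⟩ rfl rfl
      rcases (show j < n ∨ j = n by omega) with h3 | rfl
      · exact h2 j h3
      · exact h.symm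
    · rw [if_neg h2, zero_mul, if_neg fun h => h2 fun j hj => h j (by omega)]

theorem truth : Pool.Agent.Helper65.RT.TRUTH_stmt := by
  intro m p _ hm k i x o hi
  unfold Pool.Agent.Helper65.RT.Mach.P
  by_cases hiG : i < m.G
  · rw [if_pos hiG]
    set d : ℕ → ℕ := fun e => m.q x (i * m.E + e) (m.Zt (m.T k) x (i * m.E + e)) with hd
    have hdlt : ∀ j < m.E, d j < 2 ^ m.σ := fun j _ => hm.hq _ _ _
    have hpow : 2 ^ (m.σ * m.E) = (2 ^ m.σ) ^ m.E := by rw [pow_mul]
    have hy0 : tab (2 ^ m.σ) m.E d < 2 ^ (m.σ * m.E) := by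
      rw [hpow]; exact tab_lt hdlt
    rw [Finset.sum_eq_single (tab (2 ^ m.σ) m.E d)]
    · have hdig : ∀ j < m.E, dig (2 ^ m.σ) (tab (2 ^ m.σ) m.E d) j = d j :=
        fun j hj => dig_tab hdlt hj
      rw [fhat_true hm p k x _ hi]
      unfold Mach.F
      rw [ok_true hm k i x _ le_rfl, if_pos hdig, one_mul,
        Zr_true hm k i x _ le_rfl hdig]
      unfold Pool.Agent.Helper65.RT.Mach.V Mach.vn
      rw [if_pos hiG]
    · intro y hy hne
      rw [fhat_true hm p k x y hi]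
      unfold Mach.F
      rw [ok_true hm k i x y le_rfl, if_neg, zero_mul]
      · simp [bitZ, dig]
      · intro h
        apply hne
        rw [mem_range, hpow] at hy
        rw [← tab_dig y m.E hy]
        exact tab_congr fun j hj => h j hj
    · intro h
      exact absurd (mem_range.mpr hy0) h
  · have hG : i = m.G := by omega
    subst hG
    rw [if_neg hiG]
    have h1 : m.Zt (m.T k) x (m.G * m.E) < 2 ^ (m.G * m.wn) := Zi_lt hm k m.G x
    have h2 := fhat_bits p (m.G * m.wn) (m.o x) o h1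
    have h3 : fhat p (m.G * m.wn) (m.o x) o (fun j => m.V p k (j / m.wn) x (j % m.wn)) =
        fhat p (m.G * m.wn) (m.o x) o (fun j => bitZ p (m.Zt (m.T k) x (m.G * m.E)) j) :=
      fhat_congr p fun j hj => V_bits hm p k x le_rfl hj
    rw [h3, h2]
    unfold Pool.Agent.Helper65.RT.Mach.V Mach.vn
    rw [if_neg hiG]
    rfl

end Pool.Agent.Helper35.RT
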